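import Mathlib
import Pool.Agent.Helper43.Hw.Goals2

/-!
Packet H16: the window theorem for equal multiplicities.
-/

set_option autoImplicit false

namespace Pool.Agent.Helper43.Hw.PkH16

open Finset Pool.Agent.Helper43.Hw
open Helper18.Cusp (Concl)

theorem ns_of_concl {n m d : ℕ} (h : Concl n (fun i => if i < n then m else 0) d) : NS n m d := by
  obtain ⟨G, hG, h2⟩ := h
  refine ⟨G, hG, fun P hP hP2 => ?_⟩
  have h3 := h2 P hP hP2
  have h4 : (fun i : Fin n => (if (i : ℕ) < n then m else 0)) = fun _ => m := by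
    funext i
    rw [if_pos i.2]
  have h5 : ∑ i : Fin n, (((if (i : ℕ) < n then m else 0) + 1).choose 2 : ℤ) =
      n * ((m + 1).choose 2 : ℤ) := by
    have : ∀ i : Fin n, (((if (i : ℕ) < n then m else 0) + 1).choose 2 : ℤ) =
        ((m + 1).choose 2 : ℤ) := fun i => by rw [if_pos i.2]
    rw [Finset.sum_congr rfl fun i _ => this i]
    simp
  rw [h5] at h3
  rw [← h3]
  have h6 : Helper18.Shgh.FS n (fun i => if i < n then m else 0) d P =
      (MvPolynomial.homogeneousSubmodule (Fin 3) ℂ d ⊓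
          ⨅ i : Fin n, Submodule.restrictScalars ℂ
            ((Ideal.span {g : MvPolynomial (Fin 3) ℂ |
                g.IsHomogeneous 1 ∧ MvPolynomial.eval (P i) g = 0}) ^ m
              : Ideal (MvPolynomial (Fin 3) ℂ))) := by
    unfold Helper18.Shgh.FS
    congr 1
    refine iInf_congr fun i => ?_
    simp only [if_pos i.2]
    rfl
  rw [h6]

theorem ns_of_game {n m d : ℕ}
    (h : (n * T m ≤ T (d + 1) ∧ Pool.Agent.Lead.Rw.Ind' (Pool.Agent.Lead.Sh.triD 0 d)
        (Pool.Agent.Lead.Sh.rows (fun _ => m) (range n))) ∨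
      (T (d + 1) ≤ n * T m ∧ Pool.Agent.Lead.Sh.Inj (Pool.Agent.Lead.Sh.triD 0 d)
        (Pool.Agent.Lead.Sh.rows (fun _ => m) (range n)))) : NS n m d := by
  have hs : ∑ i ∈ range n, Nat.choose ((fun _ : ℕ => m) i + 1) 2 = n * T m := by
    rw [T_choose]
    simp
  have hd : Nat.choose (d + 2) 2 = T (d + 1) := (T_choose (d + 1)).symm
  obtain ⟨G, hG, h2⟩ := Pool.Agent.Lead.Rw.concl n (fun _ => m) d (by
    rw [hs, hd]
    rcases h with ⟨h1, h2⟩ | ⟨h1, h2⟩
    · exact Or.inl ⟨h1, h2.ind⟩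
    · exact Or.inr ⟨h1, h2⟩)
  refine ⟨G, hG, fun P hP hP2 => ?_⟩
  rw [h2 P hP hP2]
  simp

theorem win_nonneg (n m : ℕ) (hn : 1 ≤ n) : 0 ≤ win n m := by
  unfold win
  have h1 : 0 ≤ Real.log n := Real.log_nonneg (by exact_mod_cast hn)
  positivity

theorem goalH16 : GoalH16 := by
  intro h16a h15 hG2 hX9 h14
  obtain ⟨C₀, hC₀, h16⟩ := h16a
  refine ⟨max C₀ 100, by positivity, ?_⟩
  intro n m d hn hm hw
  have hwin := win_nonneg n m hn
  set e : ℤ := ((d + 2).choose 2 : ℤ) - n * ((m + 1).choose 2 : ℤ) with he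
  have heR : ((d + 2).choose 2 : ℝ) - n * ((m + 1).choose 2 : ℝ) = (e : ℝ) := by
    rw [he]
    push_cast
    rfl
  rw [heR] at hw
  have heT : e = (T (d + 1) : ℤ) - n * T m := by
    rw [he, T_choose, T_choose]
  have hanti : Antitone (fun i => if i < n then m else 0) := by
    intro a b hab
    show (if b < n then m else 0) ≤ (if a < n then m else 0)
    split_ifs <;> omega
  have hzero : ∀ i, n ≤ i → (fun i => if i < n then m else 0) i = 0 := fun i hi => by
    show (if i < n then m else 0) = 0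
    rw [if_neg (by omega)]
  have h0 : (if 0 < n then m else 0) = m := if_pos (by omega)
  by_cases c1 : 3 * (m : ℤ) ^ 2 ≤ |e|
  · -- far from the window
    refine ns_of_concl (hG2 n (fun i => if i < n then m else 0) d hanti hzero ?_)
    have h5 : ∑ i : Fin n, (((fun i => if i < n then m else 0) (i : ℕ) + 1).choose 2 : ℤ) =
        n * ((m + 1).choose 2 : ℤ) := by
      have : ∀ i : Fin n, (((fun i => if i < n then m else 0) (i : ℕ) + 1).choose 2 : ℤ) =
          ((m + 1).choose 2 : ℤ) := fun i => by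
        show (((if (i : ℕ) < n then m else 0) + 1).choose 2 : ℤ) = _
        rw [if_pos i.2]
      rw [Finset.sum_congr rfl fun i _ => this i]
      simp
    rw [h5, ← he]
    simp only [h0]
    have hm1 : (1 : ℤ) ≤ m := by exact_mod_cast hm
    rcases le_total 0 e with h6 | h6
    · left
      rw [abs_of_nonneg h6] at c1
      have h7 : (0 : ℤ) ≤ ((Finset.univ.filter (fun i : Fin n =>
        (if (i : ℕ) < n then m else 0) = 1)).card : ℤ) := by positivity
      nlinarith
    · right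
      rw [abs_of_nonpos h6] at c1
      nlinarith
  push Not at c1
  by_cases c2 : 28 * m ^ 2 ≤ d
  · refine ns_of_concl (hX9 n (fun i => if i < n then m else 0) d hanti hzero ?_)
    simp only [h0]
    exact c2
  push Not at c2
  -- the window
  set R := d + 1 with hR
  set W := e.natAbs with hW
  have hWZ : (W : ℤ) = |e| := Int.natCast_natAbs e
  have hWR : (W : ℝ) = |(e : ℝ)| := by
    have : ((W : ℤ) : ℝ) = ((|e| : ℤ) : ℝ) := by rw [hWZ]
    push_cast at this
    exact this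
  have hW3 : W < 3 * m ^ 2 := by
    have : (W : ℤ) < 3 * (m : ℤ) ^ 2 := by rw [hWZ]; exact c1
    exact_mod_cast this
  have hW3R : (W : ℝ) < 3 * (m : ℝ) ^ 2 := by exact_mod_cast hW3
  have hCW : max C₀ 100 * win n m ≤ W := by rw [hWR]; exact hw
  have hC0W : C₀ * win n m ≤ W :=
    (mul_le_mul_of_nonneg_right (le_max_left _ _) hwin).trans hCW
  have h100 : 100 * win n m ≤ W :=
    (mul_le_mul_of_nonneg_right (le_max_right _ _) hwin).trans hCW
  have hnR : (1 : ℝ) ≤ n := by exact_mod_cast hn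
  have hmR : (1 : ℝ) ≤ m := by exact_mod_cast hm
  have hn24 : 24 ≤ n := by
    have h1 : (m : ℝ) ^ 2 / n ≤ win n m := by
      unfold win
      have h2 : 0 ≤ Real.log n := Real.log_nonneg hnR
      have h3 : 1 ≤ (1 + Real.log n) ^ 3 := one_le_pow₀ (by linarith)
      have h4 : 0 ≤ Real.sqrt (m * n) := Real.sqrt_nonneg _
      have h5 : 0 ≤ (m : ℝ) ^ 2 / n := by positivity
      nlinarith
    have h2 : 100 * ((m : ℝ) ^ 2 / n) < 3 * (m : ℝ) ^ 2 := by linarith
    have h3 : (24 : ℝ) ≤ n := by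
      have hn0 : (0 : ℝ) < n := by linarith
      have h4 : 100 * (m : ℝ) ^ 2 < 3 * (m : ℝ) ^ 2 * n := by
        have h5 : 100 * ((m : ℝ) ^ 2 / n) = 100 * (m : ℝ) ^ 2 / n := by ring
        rw [h5, div_lt_iff₀ hn0] at h2
        exact h2
      have h6 : 0 < (m : ℝ) ^ 2 := by positivity
      nlinarith
    exact_mod_cast h3
  have hn24R : (24 : ℝ) ≤ n := by exact_mod_cast hn24
  -- R (R + 1) = n m (m + 1) + 2 e
  have hRR : (R : ℝ) * (R + 1) = n * (m * (m + 1)) + 2 * e := by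
    have h1 : ((2 * T R : ℕ) : ℤ) = ((R * (R + 1) : ℕ) : ℤ) := by rw [two_T]
    have h2 : ((2 * T m : ℕ) : ℤ) = ((m * (m + 1) : ℕ) : ℤ) := by rw [two_T]
    push_cast at h1 h2
    have h3 : (R : ℤ) * (R + 1) = n * (m * (m + 1)) + 2 * e := by
      rw [heT]
      linear_combination (-1 : ℤ) * h1 + (n : ℤ) * h2
    exact_mod_cast h3
  have he1 : |(e : ℝ)| < 3 * (m : ℝ) ^ 2 := by rw [← hWR]; exact hW3R
  have he2 := (abs_lt.1 he1).1
  have he3 := (abs_lt.1 he1).2
  have hnm : 24 * (m : ℝ) ^ 2 ≤ n * (m : ℝ) ^ 2 :=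
    mul_le_mul_of_nonneg_right hn24R (by positivity)
  have hnm2 : (n : ℝ) * m ≤ n * (m : ℝ) ^ 2 := by
    refine mul_le_mul_of_nonneg_left ?_ (by linarith)
    nlinarith
  have hR1 : (1 : ℝ) ≤ R := by
    rw [hR]
    push_cast
    have : (0 : ℝ) ≤ d := by positivity
    linarith
  have hs2 : ((m : ℝ) * Real.sqrt n) ^ 2 = n * (m : ℝ) ^ 2 := by
    rw [mul_pow, Real.sq_sqrt (by linarith)]
    ring
  have hs0 : 0 ≤ (m : ℝ) * Real.sqrt n := by positivity
  have hlow : (m : ℝ) * Real.sqrt n ≤ 2 * R := by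
    refine le_of_sq_le_sq ?_ (by linarith)
    rw [hs2]
    nlinarith
  have hupp : (R : ℝ) ≤ 4 * m * Real.sqrt n := by
    have h1 : (R : ℝ) ≤ 4 * (m * Real.sqrt n) := by
      refine le_of_sq_le_sq ?_ (by linarith)
      rw [mul_pow, hs2]
      nlinarith
    linarith
  obtain ⟨l, L, w, a1, a2, a3, a4, a5, a6, a7, a8, a9, a10⟩ := h16 n m R W hn hm (by linarith)
    hlow hupp (by omega) hC0W hW3.le
  have heTR : |(T R : ℤ) - n * T m| = W := by rw [← heT, hWZ]
  obtain ⟨κ, x, hP, hcase⟩ := h15 m R n l L w hm hn a1 a2 a3 a4 a5 a6 a7 a8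
    (by rw [heTR]; exact_mod_cast a9) (by rw [heTR]; exact_mod_cast a10)
  obtain ⟨g1, g2⟩ := h14 m d n κ x hm (by omega) hP
  refine ns_of_game ?_
  rcases hcase with ⟨b1, b2⟩ | ⟨b1, b2⟩
  · exact Or.inl ⟨b1, g2 b2⟩
  · exact Or.inr ⟨b1, g1 b2⟩

end Pool.Agent.Helper43.Hw.PkH16
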